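import Pool.Agent.Lib.MP_534936_co.Gn.AssembleRows

/-!
# The minor at a shortest arc
-/

set_option autoImplicit false

namespace Pool.Agent.Lib.MP_534936_co.Gn

open Pool.Agent.Lib.MP_534936_co

private theorem conn_singleton {V : Type} (G : SimpleGraph V) (u : V) :
    (G.induce ({u} : Set V)).Connected := by
  have : Nonempty ({u} : Set V) := ⟨⟨u, Set.mem_singleton u⟩⟩
  refine SimpleGraph.Connected.mk ?_
  rintro ⟨x, hx⟩ ⟨y, hy⟩
  have h1 : x = u := hx
  have h2 : y = u := hy
  subst h1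
  subst h2
  exact SimpleGraph.Reachable.refl _

/-- the minor, given (GEN) -/
theorem minor_at {V : Type} [Fintype V] {G : SimpleGraph V} {v : V} (hgen : Gen) (L : Lin G v) (n : ℕ)
    (hcol : ∃ c : V → ℕ, (∀ u, u ≠ v → c u < n) ∧ ∀ u w, u ≠ v → w ≠ v → G.Adj u w → c u ≠ c w)
    (hno : ¬ ∃ c : V → ℕ, (∀ u, c u < n) ∧ ∀ u w, G.Adj u w → c u ≠ c w) : HasMinor G (n + 1) := by
  classical
  obtain ⟨c, hc⟩ := hcol
  obtain ⟨S, hdis, hgood, hconn, hroot, htouch⟩ := row_sets hgen L n c hc hno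
  -- a `com` arc for every colour which is not a row
  have hcom : ∀ k : Fin n, ¬ Row L n c k → ∃ u, L.com u ∧ c u = (k : ℕ) := by
    intro k hk
    by_contra hcon
    refine hk ⟨k.2, fun u hu h => hcon ⟨u, hu, h⟩⟩
  obtain ⟨m, hm⟩ : ∃ m : Fin n → V, ∀ k : Fin n, ¬ Row L n c k → L.com (m k) ∧ c (m k) = (k : ℕ) := by
    refine ⟨fun k => if h : Row L n c k then v else Classical.choose (hcom k h), ?_⟩
    intro k hk
    dsimp only
    rw [dif_neg hk]
    exact Classical.choose_spec (hcom k hk)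
  -- the branch sets of the colours
  obtain ⟨B, hB1, hB2⟩ : ∃ B : Fin n → Set V, (∀ (k : Fin n) (h : Row L n c k), B k = (S ⟨k, h⟩ : Set V)) ∧
      ∀ k : Fin n, ¬ Row L n c k → B k = {m k} := by
    refine ⟨fun k => if h : Row L n c k then (S ⟨k, h⟩ : Set V) else {m k}, ?_, ?_⟩
    · intro k h
      exact dif_pos h
    · intro k h
      exact dif_neg h
  have hBconn : ∀ k, (G.induce (B k)).Connected := by
    intro k
    by_cases h : Row L n c k
    · rw [hB1 k h]
      exact hconn ⟨k, h⟩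
    · rw [hB2 k h]
      exact conn_singleton G (m k)
  -- every branch set contains a neighbour of `v` and does not contain `v`
  have hBroot : ∀ k, ∃ u ∈ B k, L.com u ∨ L.isP u ∨ L.isR u := by
    intro k
    by_cases h : Row L n c k
    · obtain ⟨u, hu, hr⟩ := hroot ⟨k, h⟩
      rw [hB1 k h]
      exact ⟨u, hu, Or.inr hr⟩
    · rw [hB2 k h]
      exact ⟨m k, Set.mem_singleton _, Or.inl (hm k h).1⟩
  have hBv : ∀ k, v ∉ B k := by
    intro k hv
    by_cases h : Row L n c k
    · rw [hB1 k h] at hv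
      exact (hgood ⟨k, h⟩ v (Finset.mem_coe.1 hv)).1 rfl
    · rw [hB2 k h] at hv
      exact L.com_ne (m k) (hm k h).1 (Set.mem_singleton_iff.1 hv).symm
  have hmix : ∀ (k : Fin n) (w : V), Row L n c k → L.com w → w ∉ B k ∧ ∃ u ∈ B k, G.Adj w u := by
    intro k w hk hw
    rw [hB1 k hk]
    constructor
    · intro h
      exact (hgood ⟨k, hk⟩ w (Finset.mem_coe.1 h)).2.1 hw
    · obtain ⟨u, hu, hr⟩ := hroot ⟨k, hk⟩
      refine ⟨u, hu, L.adj_com w u hw ?_ (Or.inr hr)⟩
      rintro rfl
      exact (hgood ⟨k, hk⟩ w hu).2.1 hw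
  have hBB : ∀ j k : Fin n, j ≠ k → Disjoint (B j) (B k) ∧ ∃ x ∈ B j, ∃ y ∈ B k, G.Adj x y := by
    intro j k hjk
    by_cases hj : Row L n c j
    · by_cases hk : Row L n c k
      · rw [hB1 j hj, hB1 k hk]
        have hne : (⟨j, hj⟩ : {k : Fin n // Row L n c k}) ≠ ⟨k, hk⟩ := by
          intro h
          exact hjk (congrArg Subtype.val h)
        refine ⟨Finset.disjoint_coe.2 (hdis _ _ hne), ?_⟩
        obtain ⟨u, hu, w, hw, huw⟩ := htouch _ _ hne
        exact ⟨u, Finset.mem_coe.2 hu, w, Finset.mem_coe.2 hw, huw⟩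
      · obtain ⟨h1, u, hu, h2⟩ := hmix j (m k) hj (hm k hk).1
        rw [hB2 k hk]
        exact ⟨Set.disjoint_singleton_right.2 h1, u, hu, m k, Set.mem_singleton _, h2.symm⟩
    · by_cases hk : Row L n c k
      · obtain ⟨h1, u, hu, h2⟩ := hmix k (m j) hk (hm j hj).1
        rw [hB2 j hj]
        exact ⟨Set.disjoint_singleton_left.2 h1, m j, Set.mem_singleton _, u, hu, h2⟩
      · have hne : m j ≠ m k := by
          intro h
          have h3 := (hm j hj).2
          rw [h, (hm k hk).2] at h3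
          exact hjk (Fin.ext h3.symm)
        rw [hB2 j hj, hB2 k hk]
        exact ⟨Set.disjoint_singleton_left.2 (fun h => hne (Set.mem_singleton_iff.1 h)),
          m j, Set.mem_singleton _, m k, Set.mem_singleton _,
          L.adj_com (m j) (m k) (hm j hj).1 hne (Or.inl (hm k hk).1)⟩
  have hvB : ∀ k : Fin n, ∃ u ∈ B k, G.Adj v u := by
    intro k
    obtain ⟨u, hu, hr⟩ := hBroot k
    exact ⟨u, hu, (L.adj_v u).2 hr⟩
  refine hasMinor_of_equiv G (n + 1) (ι := Option (Fin n)) (by simp)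
    (fun o => o.elim {v} B) ?_ ?_
  · intro o
    cases o with
    | none => exact conn_singleton G v
    | some k => exact hBconn k
  · intro o o' hoo
    cases o with
    | none =>
      cases o' with
      | none => exact absurd rfl hoo
      | some k =>
        obtain ⟨u, hu, h2⟩ := hvB k
        exact ⟨Set.disjoint_singleton_left.2 (hBv k), v, Set.mem_singleton v, u, hu, h2⟩
    | some j =>
      cases o' with
      | none =>
        obtain ⟨u, hu, h2⟩ := hvB j
        exact ⟨Set.disjoint_singleton_right.2 (hBv j), u, hu, v, Set.mem_singleton v, h2.symm⟩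
      | some k => exact hBB j k (fun h => hoo (congrArg some h))

end Pool.Agent.Lib.MP_534936_co.Gn
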