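import Pool.Agent.Lib.MP_534936_co.Gn.Lin

/-!
# Connectedness and touching from coverage of gaps
-/

set_option autoImplicit false

namespace Pool.Agent.Lib.MP_534936_co.Gn

open Pool.Agent.Lib.MP_534936_co

variable {V : Type} {G : SimpleGraph V} {v : V}

/-- the arcs in question: not `v`, not containing both ends of `v`, crossing a gap -/
def Good (L : Lin G v) (u : V) : Prop := u ≠ v ∧ ¬ L.com u ∧ L.lo u ≤ L.hi u

/-- `S` crosses the gap `g` -/
def Cross (L : Lin G v) (S : Finset V) (g : ℕ) : Prop := ∃ u ∈ S, L.lo u ≤ g ∧ g ≤ L.hi u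

theorem good_lo (L : Lin G v) {u : V} (h : Good L u) (h0 : L.lo u = 0) : L.isP u := by
  obtain ⟨h1, h2, h3⟩ := h
  by_contra hP
  by_cases hR : L.isR u
  · have h4 := (L.R_spec u hR).2.2.1
    omega
  · have h4 := (L.O_spec u h1 h2 hP hR).1
    omega

theorem good_hi (L : Lin G v) {u : V} (h : Good L u) (h0 : L.hi u = L.T) : L.isR u := by
  obtain ⟨h1, h2, h3⟩ := h
  by_contra hR
  by_cases hP : L.isP u
  · have h4 := (L.P_spec u hP).2.2.2
    omega
  · have h4 := (L.O_spec u h1 h2 hP hR).2.2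
    omega

theorem good_hi_le (L : Lin G v) {u : V} (h : Good L u) : L.hi u ≤ L.T := by
  obtain ⟨h1, h2, h3⟩ := h
  by_cases hP : L.isP u
  · exact (L.P_spec u hP).2.2.2.le
  · by_cases hR : L.isR u
    · exact (L.R_spec u hR).2.2.2.2.le
    · exact (L.O_spec u h1 h2 hP hR).2.2.le

/-- two arcs whose runs of gaps meet or are consecutive -/
theorem good_adj (L : Lin G v) {u w : V} (hu : Good L u) (hw : Good L w) (huw : u ≠ w)
    (h1 : L.lo u ≤ L.hi w + 1) (h2 : L.lo w ≤ L.hi u + 1) : G.Adj u w :=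
  (L.adj_iff u w hu.1 hw.1 hu.2.1 hw.2.1 huw).2 (Or.inl ⟨h1, h2⟩)

/-- reachability of all elements from one of them -/
theorem conn_of_reach (S : Finset V) (p : V) (hp : p ∈ S) (f : V → ℕ)
    (hstep : ∀ u ∈ S, u = p ∨ G.Adj p u ∨ ∃ w ∈ S, f w < f u ∧ G.Adj w u) :
    (G.induce (S : Set V)).Connected := by
  have hreach : ∀ (n : ℕ) (u : V) (hu : u ∈ S), f u = n →
      (G.induce (S : Set V)).Reachable ⟨p, hp⟩ ⟨u, hu⟩ := by
    intro n
    induction n using Nat.strong_induction_on with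
    | _ n ih =>
      intro u hu hn
      rcases hstep u hu with h | h | ⟨w, hw, h1, h2⟩
      · subst h
        exact SimpleGraph.Reachable.refl _
      · exact SimpleGraph.Adj.reachable (show (G.induce (S : Set V)).Adj ⟨p, hp⟩ ⟨u, hu⟩ from h)
      · refine (ih (f w) (by omega) w hw rfl).trans ?_
        exact SimpleGraph.Adj.reachable (show (G.induce (S : Set V)).Adj ⟨w, hw⟩ ⟨u, hu⟩ from h2)
  have : Nonempty (S : Set V) := ⟨⟨p, hp⟩⟩
  refine SimpleGraph.Connected.mk fun x y => ?_
  exact (hreach _ x.1 x.2 rfl).symm.trans (hreach _ y.1 y.2 rfl)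

/-- a set which contains a `P` arc and crosses an initial interval of gaps is connected -/
theorem conn_P (L : Lin G v) (S : Finset V) (hS : ∀ u ∈ S, Good L u) (p : V) (hp : p ∈ S) (hp0 : L.lo p = 0)
    (hcov : ∀ u ∈ S, ∀ g, g ≤ L.hi u → Cross L S g) : (G.induce (S : Set V)).Connected := by
  refine conn_of_reach S p hp L.lo fun u hu => ?_
  by_cases hup : u = p
  · exact Or.inl hup
  · right
    by_cases h0 : L.lo u = 0
    · left
      exact good_adj L (hS p hp) (hS u hu) (fun h => hup h.symm) (by omega) (by omega)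
    · right
      obtain ⟨w, hw, h1, h2⟩ := hcov u hu (L.lo u - 1) (by have := (hS u hu).2.2; omega)
      have hwu : w ≠ u := by
        rintro rfl
        omega
      have h3 := (hS u hu).2.2
      exact ⟨w, hw, by omega, good_adj L (hS w hw) (hS u hu) hwu (by omega) (by omega)⟩

/-- a set which contains an `R` arc and crosses a final interval of gaps is connected -/
theorem conn_R (L : Lin G v) (S : Finset V) (hS : ∀ u ∈ S, Good L u) (q : V) (hq : q ∈ S) (hq0 : L.hi q = L.T)
    (hcov : ∀ u ∈ S, ∀ g, L.lo u ≤ g → g ≤ L.T → Cross L S g) : (G.induce (S : Set V)).Connected := by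
  refine conn_of_reach S q hq (fun u => L.T - L.hi u) fun u hu => ?_
  have h3 := (hS u hu).2.2
  have h4 := (hS q hq).2.2
  have h5 := good_hi_le L (hS u hu)
  by_cases huq : u = q
  · exact Or.inl huq
  · right
    by_cases h0 : L.hi u = L.T
    · left
      exact good_adj L (hS q hq) (hS u hu) (fun h => huq h.symm) (by omega) (by omega)
    · right
      obtain ⟨w, hw, h1, h2⟩ := hcov u hu (L.hi u + 1) (by omega) (by omega)
      have hwu : w ≠ u := by
        rintro rfl
        omega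
      have h6 := good_hi_le L (hS w hw)
      exact ⟨w, hw, by omega, good_adj L (hS w hw) (hS u hu) hwu (by omega) (by omega)⟩

/-- two such sets which cross every gap together touch -/
theorem touch (L : Lin G v) (S R : Finset V) (hdis : Disjoint S R) (hS : ∀ u ∈ S, Good L u)
    (hR : ∀ u ∈ R, Good L u) (p q : V) (hp : p ∈ S) (hp0 : L.lo p = 0) (hq : q ∈ R) (hq0 : L.hi q = L.T)
    (hcovS : ∀ u ∈ S, ∀ g, g ≤ L.hi u → Cross L S g)
    (hcovR : ∀ u ∈ R, ∀ g, L.lo u ≤ g → g ≤ L.T → Cross L R g)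
    (hall : ∀ g, g ≤ L.T → Cross L S g ∨ Cross L R g) : ∃ x ∈ S, ∃ y ∈ R, G.Adj x y := by
  obtain ⟨u, hu, hmax⟩ := Finset.exists_max_image S L.hi ⟨p, hp⟩
  have h1 := (hS u hu).2.2
  have h2 := good_hi_le L (hS u hu)
  have hne : ∀ y ∈ R, u ≠ y := fun y hy h => (Finset.disjoint_left.1 hdis) hu (h ▸ hy)
  by_cases h0 : L.hi u = L.T
  · have h3 := (hR q hq).2.2
    exact ⟨u, hu, q, hq, good_adj L (hS u hu) (hR q hq) (hne q hq) (by omega) (by omega)⟩
  · rcases hall (L.hi u + 1) (by omega) with ⟨w, hw, h3, h4⟩ | ⟨y, hy, h3, h4⟩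
    · have h5 := hmax w hw
      omega
    · exact ⟨u, hu, y, hy, good_adj L (hS u hu) (hR y hy) (hne y hy) (by omega) (by omega)⟩

end Pool.Agent.Lib.MP_534936_co.Gn
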