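import Mathlib

/-!
# The statement (GEN) about rows of intervals on a line
-/

set_option autoImplicit false

namespace Pool.Agent.Lib.MP_534936_co.Gn

/-- the set `S` of intervals crosses the gap `g` -/
def Cov {α : Type} (lo hi : α → ℕ) (S : Finset α) (g : ℕ) : Prop := ∃ u ∈ S, lo u ≤ g ∧ g ≤ hi u

/-- the conclusion of (GEN) -/
def GenConcl {ι α : Type} (T : ℕ) (lo hi : α → ℕ) (own : ι → Finset α) (t : ι → ℕ) (p r : ι → α)
    (D : ι → ι → Prop) : Prop :=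
  ∃ (S : ι → Finset α) (side : ι → Bool),
    (∀ x y, x ≠ y → Disjoint (S x) (S y)) ∧ (∀ x, ∀ u ∈ S x, ∃ y, u ∈ own y) ∧
    (∀ x, side x = true → 0 < t x ∧ p x ∈ S x ∧ ∀ u ∈ S x, ∀ g, g ≤ hi u → Cov lo hi (S x) g) ∧
    (∀ x, side x = false → t x ≤ T ∧ r x ∈ S x ∧ ∀ u ∈ S x, ∀ g, lo u ≤ g → g ≤ T → Cov lo hi (S x) g) ∧
    ∀ x z, x ≠ z → D x z → side x = true → side z = false →
      ∀ g, g ≤ T → Cov lo hi (S x) g ∨ Cov lo hi (S z) g

/-- (GEN) for all finite systems -/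
def Gen : Prop :=
  ∀ (ι α : Type) (_ : Fintype ι) (_ : DecidableEq ι) (_ : DecidableEq α) (T : ℕ) (lo hi : α → ℕ)
    (own : ι → Finset α) (t : ι → ℕ) (p r : ι → α) (D : ι → ι → Prop),
    (∀ x, ∀ u ∈ own x, lo u ≤ hi u ∧ hi u ≤ T) →
    (∀ x y, x ≠ y → Disjoint (own x) (own y)) →
    (∀ x, t x ≤ T + 1) →
    (∀ x, 0 < t x → p x ∈ own x ∧ lo (p x) = 0) →
    (∀ x, t x ≤ T → r x ∈ own x ∧ hi (r x) = T) →
    (∀ x z, x ≠ z → D x z → ∀ g, g ≤ T → ¬ Cov lo hi (own x) g → ¬ Cov lo hi (own z) g →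
      g < t x → t z ≤ g → False) →
    GenConcl T lo hi own t p r D

end Pool.Agent.Lib.MP_534936_co.Gn
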