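import Pool.Agent.Lib.MP_534936_co.Gn.Thresh
import Pool.Agent.Lib.MP_534936_co.Gn.Conn
import Pool.Agent.Lib.MP_534936_co.Gn.GenStmt

/-!
# One connected set for every row, from (GEN)
-/

set_option autoImplicit false

namespace Pool.Agent.Lib.MP_534936_co.Gn

open Pool.Agent.Lib.MP_534936_co

section Facts

variable {V : Type} {G : SimpleGraph V} {v : V}

theorem good_of_isP (L : Lin G v) {u : V} (h : L.isP u) : Good L u := by
  obtain ⟨h1, h2, h3, -⟩ := L.P_spec u h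
  exact ⟨h1, h2, by rw [h3]; exact Nat.zero_le _⟩

theorem good_of_isR (L : Lin G v) {u : V} (h : L.isR u) : Good L u := by
  obtain ⟨h1, h2, -, h4, h5⟩ := L.R_spec u h
  exact ⟨h1, h2, by rw [h5]; exact h4⟩

theorem adj_PP (L : Lin G v) {u w : V} (hu : L.isP u) (hw : L.isP w) (hne : u ≠ w) : G.Adj u w := by
  obtain ⟨h1, h2, h3, -⟩ := L.P_spec u hu
  obtain ⟨h1', h2', h3', -⟩ := L.P_spec w hw
  rw [L.adj_iff u w h1 h1' h2 h2' hne]
  exact Or.inl ⟨by omega, by omega⟩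

theorem adj_RR (L : Lin G v) {u w : V} (hu : L.isR u) (hw : L.isR w) (hne : u ≠ w) : G.Adj u w := by
  obtain ⟨h1, h2, h3, h4, h5⟩ := L.R_spec u hu
  obtain ⟨h1', h2', h3', h4', h5'⟩ := L.R_spec w hw
  rw [L.adj_iff u w h1 h1' h2 h2' hne]
  exact Or.inl ⟨by omega, by omega⟩

theorem isP_unique (L : Lin G v) {n : ℕ} {c : V → ℕ} (hc : Proper G v n c) {u w : V} (hu : L.isP u)
    (hw : L.isP w) (h : c u = c w) : u = w := by
  by_contra hne
  exact hc.2 u w (L.P_spec u hu).1 (L.P_spec w hw).1 (adj_PP L hu hw hne) h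

theorem isR_unique (L : Lin G v) {n : ℕ} {c : V → ℕ} (hc : Proper G v n c) {u w : V} (hu : L.isR u)
    (hw : L.isR w) (h : c u = c w) : u = w := by
  by_contra hne
  exact hc.2 u w (L.R_spec u hu).1 (L.R_spec w hw).1 (adj_RR L hu hw hne) h

/-- roots of a pair which is not required meet inside `v` -/
theorem adj_of_not_DD (L : Lin G v) {n : ℕ} {c : V → ℕ} (hc : Proper G v n c) {x y : ℕ} {p q : V}
    (hp : L.isP p) (hpx : c p = x) (hq : L.isR q) (hqy : c q = y) (hxy : x ≠ y) (h : ¬ DD L c x y) :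
    G.Adj p q := by
  have hne : p ≠ q := by
    intro he
    apply hxy
    rw [← hpx, ← hqy, he]
  obtain ⟨h1, h2, -, -⟩ := L.P_spec p hp
  obtain ⟨h1', h2', -, -, -⟩ := L.R_spec q hq
  rw [L.adj_iff p q h1 h1' h2 h2' hne]
  refine Or.inr (Or.inl ⟨hp, hq, ?_⟩)
  by_contra hlt
  apply h
  intro p' q' hp' hpx' hq' hqy'
  have e1 : p' = p := isP_unique L hc hp' hp (by rw [hpx', hpx])
  have e2 : q' = q := isR_unique L hc hq' hq (by rw [hqy', hqy])
  rw [e1, e2]
  exact not_le.1 hlt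

end Facts

/-- the input for (GEN): rows, roots and thresholds; output: one set for every row -/
theorem row_sets {V : Type} [Fintype V] {G : SimpleGraph V} {v : V} (hgen : Gen) (L : Lin G v) (n : ℕ) (c : V → ℕ)
    (hc : Proper G v n c)
    (hno : ¬ ∃ c' : V → ℕ, (∀ u, c' u < n) ∧ ∀ u w, G.Adj u w → c' u ≠ c' w) :
    ∃ S : {k : Fin n // Row L n c k} → Finset V,
      (∀ x y, x ≠ y → Disjoint (S x) (S y)) ∧ (∀ x, ∀ u ∈ S x, Good L u) ∧
      (∀ x, (G.induce (S x : Set V)).Connected) ∧ (∀ x, ∃ u ∈ S x, L.isP u ∨ L.isR u) ∧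
      ∀ x y, x ≠ y → ∃ u ∈ S x, ∃ w ∈ S y, G.Adj u w := by
  classical
  obtain ⟨t, ht1, ht2, ht3, ht4⟩ := thresholds L n c hc hno
  -- the rows
  let own : {k : Fin n // Row L n c k} → Finset V := fun x =>
    Finset.univ.filter (fun u => Good L u ∧ c u = (x.1 : ℕ))
  have hmem : ∀ x u, u ∈ own x ↔ Good L u ∧ c u = (x.1 : ℕ) := by
    intro x u
    simp only [own, Finset.mem_filter, Finset.mem_univ, true_and]
  -- the roots
  have hex1 : ∀ x : {k : Fin n // Row L n c k}, ∃ u, 0 < t x.1 → L.isP u ∧ c u = (x.1 : ℕ) := by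
    intro x
    by_cases h : 0 < t x.1
    · obtain ⟨u, hu⟩ := ht2 x.1 x.2 h
      exact ⟨u, fun _ => hu⟩
    · exact ⟨v, fun h' => absurd h' h⟩
  choose p hp using hex1
  have hex2 : ∀ x : {k : Fin n // Row L n c k}, ∃ u, t x.1 ≤ L.T → L.isR u ∧ c u = (x.1 : ℕ) := by
    intro x
    by_cases h : t x.1 ≤ L.T
    · obtain ⟨u, hu⟩ := ht3 x.1 x.2 h
      exact ⟨u, fun _ => hu⟩
    · exact ⟨v, fun h' => absurd h' h⟩
  choose r hr using hex2
  have hval : ∀ x y : {k : Fin n // Row L n c k}, x ≠ y → (x.1 : ℕ) ≠ (y.1 : ℕ) := by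
    intro x y hxy h
    exact hxy (Subtype.ext (Fin.ext h))
  have hidle : ∀ (x : {k : Fin n // Row L n c k}) (g : ℕ), ¬ Cov L.lo L.hi (own x) g →
      Idle L c x.1 g := by
    intro x g hcov u huv hcu hcom hlg
    apply hcov
    exact ⟨u, (hmem x u).2 ⟨⟨huv, hcom, le_trans hlg.1 hlg.2⟩, hcu⟩, hlg⟩
  obtain ⟨S, side, hdis, hown, hP, hR, hD⟩ := hgen {k : Fin n // Row L n c k} V inferInstance inferInstance
    inferInstance L.T L.lo L.hi own (fun x => t x.1) p r (fun x z => DD L c x.1 z.1)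
    (by
      intro x u hu
      have hg := ((hmem x u).1 hu).1
      exact ⟨hg.2.2, good_hi_le L hg⟩)
    (by
      intro x y hxy
      rw [Finset.disjoint_left]
      intro u hu hu'
      apply hval x y hxy
      rw [← ((hmem x u).1 hu).2, ← ((hmem y u).1 hu').2])
    (fun x => ht1 x.1)
    (by
      intro x hx
      have h := hp x hx
      exact ⟨(hmem x (p x)).2 ⟨good_of_isP L h.1, h.2⟩, (L.P_spec _ h.1).2.2.1⟩)
    (by
      intro x hx
      have h := hr x hx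
      exact ⟨(hmem x (r x)).2 ⟨good_of_isR L h.1, h.2⟩, (L.R_spec _ h.1).2.2.2.2⟩)
    (by
      intro x z hxz hDD g hg hx hz h1 h2
      exact ht4 x.1 z.1 x.2 z.2 (hval x z hxz) hDD g hg (hidle x g hx) (hidle z g hz) h1 h2)
  have hgood : ∀ x, ∀ u ∈ S x, Good L u := by
    intro x u hu
    obtain ⟨y, hy⟩ := hown x u hu
    exact ((hmem y u).1 hy).1
  have hside : ∀ x, side x = true ∨ side x = false := fun x => by
    cases side x
    · exact Or.inr rfl
    · exact Or.inl rfl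
  have hPR : ∀ x y, x ≠ y → side x = true → side y = false →
      ∃ u ∈ S x, ∃ w ∈ S y, G.Adj u w := by
    intro x y hxy hx hy
    obtain ⟨hx1, hx2, hx3⟩ := hP x hx
    obtain ⟨hy1, hy2, hy3⟩ := hR y hy
    have hpx := hp x hx1
    have hry := hr y hy1
    by_cases hDD : DD L c x.1 y.1
    · exact touch L (S x) (S y) (hdis x y hxy) (hgood x) (hgood y) (p x) (r y) hx2
        (L.P_spec _ hpx.1).2.2.1 hy2 (L.R_spec _ hry.1).2.2.2.2 hx3 hy3 (hD x y hxy hDD hx hy)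
    · exact ⟨p x, hx2, r y, hy2, adj_of_not_DD L hc hpx.1 hpx.2 hry.1 hry.2 (hval x y hxy) hDD⟩
  refine ⟨S, hdis, hgood, ?_, ?_, ?_⟩
  · intro x
    rcases hside x with hx | hx
    · obtain ⟨hx1, hx2, hx3⟩ := hP x hx
      exact conn_P L (S x) (hgood x) (p x) hx2 (L.P_spec _ (hp x hx1).1).2.2.1 hx3
    · obtain ⟨hx1, hx2, hx3⟩ := hR x hx
      exact conn_R L (S x) (hgood x) (r x) hx2 (L.R_spec _ (hr x hx1).1).2.2.2.2 hx3
  · intro x
    rcases hside x with hx | hx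
    · obtain ⟨hx1, hx2, hx3⟩ := hP x hx
      exact ⟨p x, hx2, Or.inl (hp x hx1).1⟩
    · obtain ⟨hx1, hx2, hx3⟩ := hR x hx
      exact ⟨r x, hx2, Or.inr (hr x hx1).1⟩
  · intro x y hxy
    rcases hside x with hx | hx
    · rcases hside y with hy | hy
      · obtain ⟨hx1, hx2, -⟩ := hP x hx
        obtain ⟨hy1, hy2, -⟩ := hP y hy
        refine ⟨p x, hx2, p y, hy2, adj_PP L (hp x hx1).1 (hp y hy1).1 ?_⟩
        intro he
        exact Finset.disjoint_left.1 (hdis x y hxy) hx2 (he ▸ hy2)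
      · exact hPR x y hxy hx hy
    · rcases hside y with hy | hy
      · obtain ⟨u, hu, w, hw, hadj⟩ := hPR y x (Ne.symm hxy) hy hx
        exact ⟨w, hw, u, hu, hadj.symm⟩
      · obtain ⟨hx1, hx2, -⟩ := hR x hx
        obtain ⟨hy1, hy2, -⟩ := hR y hy
        refine ⟨r x, hx2, r y, hy2, adj_RR L (hr x hx1).1 (hr y hy1).1 ?_⟩
        intro he
        exact Finset.disjoint_left.1 (hdis x y hxy) hx2 (he ▸ hy2)

end Pool.Agent.Lib.MP_534936_co.Gn
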