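import Pool.Agent.Lib.MP_534936_co.Gn.Hadwiger
import Pool.Agent.Lib.MP_534936_co.WrapAll
import Pool.Agent.Lib.MP_534936_co.Gql

/-!
# Hadwiger's conjecture for circular-arc graphs, given (GEN)
-/

set_option autoImplicit false

namespace Pool.Agent.Lib.MP_534936_co.Gn

open Pool.Agent.Lib.MP_534936_co

theorem final (hgen : Gen) (V : Type) [Fintype V] (G : SimpleGraph V) (s l : V → ℝ) (hl : ∀ v, 0 ≤ l v)
    (hG : ∀ u v, G.Adj u v ↔
      u ≠ v ∧ ∃ x : ℝ, Int.fract (x - s u) ≤ l u ∧ Int.fract (x - s v) ≤ l v) :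
    (∀ S : Set V, S.Nonempty →
      ∃ u ∈ S, ∃ A B : Set V, G.IsClique A ∧ G.IsClique B ∧
        A ∪ B = {v | v ∈ S ∧ G.Adj u v}) ∧
    ∀ k : ℕ, G.chromaticNumber = (k : ℕ∞) →
      ∃ f : Fin k → Set V,
        (∀ i, (G.induce (f i)).Connected) ∧
        (∀ i j, i ≠ j →
          Disjoint (f i) (f j) ∧ ∃ x ∈ f i, ∃ y ∈ f j, G.Adj x y) := by
  obtain ⟨N, a, b, hN, hab, hint, -⟩ := wrap_all s l hl
  have hG' : ∀ u v, G.Adj u v ↔ u ≠ v ∧ ∃ p, Mem N a b u p ∧ Mem N a b v p := by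
    intro u v
    rw [hG u v]
    constructor
    · rintro ⟨h1, h2⟩
      exact ⟨h1, (hint u v).1 h2⟩
    · rintro ⟨h1, h2⟩
      exact ⟨h1, (hint u v).2 h2⟩
  have hb : ∀ v, 0 ≤ b v ∧ b v < N := fun v => (hab v).2.2
  have ha : ∀ v, 0 ≤ a v ∧ a v < N := fun v => ⟨(hab v).1, (hab v).2.1⟩
  refine ⟨fun S hS => gql N hN a b hb G hG' S hS, fun k hk => ?_⟩
  cases k with
  | zero => exact ⟨fun i => i.elim0, fun i => i.elim0, fun i => i.elim0⟩
  | succ n =>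
    refine minor_of_not_colourable_all hgen _ V rfl N hN a b ha hb G hG' n ?_
    rintro ⟨c, hc1, hc2⟩
    have hcol : G.Colorable n :=
      ⟨SimpleGraph.Coloring.mk (fun v => (⟨c v, hc1 v⟩ : Fin n)) (fun {u v} huv h =>
        hc2 u v huv (congrArg Fin.val h))⟩
    have h1 := hcol.chromaticNumber_le
    rw [hk] at h1
    have h2 : n + 1 ≤ n := by exact_mod_cast h1
    omega

end Pool.Agent.Lib.MP_534936_co.Gn
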