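import Pool.Agent.Lib.MP_534936_co.Gen.Main
import Pool.Agent.Lib.MP_534936_co.Gn.GenStmt

/-!
# (GEN) from the system version
-/

set_option autoImplicit false

namespace Pool.Agent.Lib.MP_534936_co.Gn

open Pool.Agent.Lib.MP_534936_co.Gen

theorem gen : Gen := by
  intro ι α _ _ _ T lo hi own t p r D h1 h2 h3 h4 h5 h6
  obtain ⟨I, hI⟩ : ∃ I : Inst ι α, I = ⟨T, lo, hi, fun x z => x ≠ z ∧ D x z, p, r, own, t⟩ := ⟨_, rfl⟩
  have hok : I.Ok := by
    subst hI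
    refine ⟨fun x a ha => (h1 x a ha).1, fun x a ha => (h1 x a ha).2, ?_, h3, h4, h5, ?_⟩
    · intro x y a hx hy
      by_contra hxy
      exact Finset.disjoint_left.1 (h2 x y hxy) hx hy
    · rintro x z ⟨hxz, hD⟩ g hg hH hL
      exact h6 x z hxz hD g hg hH.1 hL.1 hH.2 hL.2
  obtain ⟨S, side, s1, s2, s3, s4, s5⟩ := Inst.sol_of_ok I hok
  subst hI
  refine ⟨S, side, ?_, s1, s3, s4, ?_⟩
  · intro x y hxy
    exact Finset.disjoint_left.2 (fun a ha hb => hxy (s2 x y a ha hb))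
  · intro x z hxz hD hx hz g hg
    exact s5 x z ⟨hxz, hD⟩ hx hz g hg

end Pool.Agent.Lib.MP_534936_co.Gn
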