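import Pool.Agent.Lib.MP_534936_co.Gn.LinExists
import Pool.Agent.Lib.MP_534936_co.Gn.Assemble
import Pool.Agent.Lib.MP_534936_co.Induct

/-!
# Circular-arc graphs which are not `n`-colourable have a complete minor with `n + 1` branch sets
-/

set_option autoImplicit false

namespace Pool.Agent.Lib.MP_534936_co.Gn

open Pool.Agent.Lib.MP_534936_co

theorem minor_of_not_colourable_all (hgen : Gen) : ∀ (k : ℕ) (V : Type) [Fintype V], Fintype.card V = k →
    ∀ (N : ℤ) (_ : 0 < N) (a l : V → ℤ)
    (_ : ∀ v, 0 ≤ a v ∧ a v < N) (_ : ∀ v, 0 ≤ l v ∧ l v < N)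
    (G : SimpleGraph V) (_ : ∀ u v, G.Adj u v ↔ u ≠ v ∧ ∃ p, Mem N a l u p ∧ Mem N a l v p)
    (n : ℕ) (_ : ¬ ∃ c : V → ℕ, (∀ v, c v < n) ∧ ∀ u v, G.Adj u v → c u ≠ c v),
    HasMinor G (n + 1) := by
  intro k
  induction k with
  | zero =>
    intro V _ hk N hN a l ha hl G hG n hno
    exfalso
    apply hno
    have hemp : IsEmpty V := Fintype.card_eq_zero_iff.1 hk
    exact ⟨fun _ => 0, fun v => (hemp.false v).elim, fun u => (hemp.false u).elim⟩
  | succ k ih =>
    intro V _ hk N hN a l ha hl G hG n hno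
    classical
    by_cases hcrit : ∀ q, ∃ c : V → ℕ, (∀ v, v ≠ q → c v < n) ∧
      ∀ u v, u ≠ q → v ≠ q → G.Adj u v → c u ≠ c v
    · have hne : Nonempty V := by
        rw [← Fintype.card_pos_iff, hk]
        exact Nat.succ_pos k
      obtain ⟨v, -, hv⟩ := Finset.exists_min_image (Finset.univ : Finset V) l Finset.univ_nonempty
      obtain ⟨L⟩ := exists_lin N hN a l ha hl G hG v (fun u => hv u (Finset.mem_univ u))
      exact minor_at hgen L n (hcrit v) hno
    · push Not at hcrit
      obtain ⟨q, hq⟩ := hcrit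
      have hcard : Fintype.card {v : V // v ≠ q} = k := by
        rw [Fintype.card_subtype, Finset.filter_ne', Finset.card_erase_of_mem (Finset.mem_univ q),
          Finset.card_univ, hk]
        rfl
      refine hasMinor_comap G (fun v : {v : V // v ≠ q} => v.1) Subtype.val_injective (n + 1) ?_
      refine ih {v : V // v ≠ q} hcard N hN (fun v => a v.1) (fun v => l v.1)
        (fun v => ha v.1) (fun v => hl v.1) _ ?_ n ?_
      · intro u v
        rw [SimpleGraph.comap_adj, hG u.1 v.1]
        constructor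
        · rintro ⟨h4, h5⟩
          exact ⟨fun h => h4 (congrArg Subtype.val h), h5⟩
        · rintro ⟨h4, h5⟩
          exact ⟨fun h => h4 (Subtype.ext h), h5⟩
      · rintro ⟨c, hc1, hc2⟩
        obtain ⟨u, v, hu, hv, huv, heq⟩ := hq (fun v => if h : v ≠ q then c ⟨v, h⟩ else 0) (by
          intro v hv
          rw [dif_pos hv]
          exact hc1 _)
        rw [dif_pos hu, dif_pos hv] at heq
        exact hc2 ⟨u, hu⟩ ⟨v, hv⟩ huv heq

end Pool.Agent.Lib.MP_534936_co.Gn
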