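import Pool.Agent.Lib.MP_534936_co.Main

/-!
# The linear picture of a circular-arc graph cut open at an arc `v`

`Lin G v` records the positions of the arcs of a circular-arc graph `G` with respect to an arc `v` of minimum length.
The points outside `v` are `1, ..., T` in their circular order from the right end of `v`; the point `0` is the right end
of `v` and the point `T + 1` the left end of `v`. Gap `g` is the place between the points `g` and `g + 1`,
`0 ≤ g ≤ T`. An arc `u ≠ v` which does not contain both ends of `v` (`com u` means that it does) contains the points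
`lo u, ..., hi u + 1`, that is it crosses the gaps `g` with `lo u ≤ g ≤ hi u` (no gap if `lo u = hi u + 1`). The arcs
`isP` contain the right end of `v` and start inside `v` at `lam`; the arcs `isR` contain the left end of `v` and end
inside `v` at `rho`.
-/

set_option autoImplicit false

namespace Pool.Agent.Lib.MP_534936_co.Gn

open Pool.Agent.Lib.MP_534936_co

/-- the linear picture of `G` cut open at `v` -/
structure Lin {V : Type} (G : SimpleGraph V) (v : V) where
  T : ℕ
  com : V → Prop
  isP : V → Prop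
  isR : V → Prop
  lo : V → ℕ
  hi : V → ℕ
  lam : V → ℕ
  rho : V → ℕ
  com_ne : ∀ u, com u → u ≠ v
  P_spec : ∀ u, isP u → u ≠ v ∧ ¬ com u ∧ lo u = 0 ∧ hi u < T
  R_spec : ∀ u, isR u → u ≠ v ∧ ¬ com u ∧ 0 < lo u ∧ lo u ≤ T ∧ hi u = T
  O_spec : ∀ u, u ≠ v → ¬ com u → ¬ isP u → ¬ isR u → 0 < lo u ∧ lo u ≤ hi u + 1 ∧ hi u < T
  adj_v : ∀ u, G.Adj v u ↔ com u ∨ isP u ∨ isR u
  adj_com : ∀ u w, com u → u ≠ w → (com w ∨ isP w ∨ isR w) → G.Adj u w
  adj_iff : ∀ u w, u ≠ v → w ≠ v → ¬ com u → ¬ com w → u ≠ w →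
    (G.Adj u w ↔ (lo u ≤ hi w + 1 ∧ lo w ≤ hi u + 1) ∨ (isP u ∧ isR w ∧ lam u ≤ rho w) ∨
      (isP w ∧ isR u ∧ lam w ≤ rho u))

end Pool.Agent.Lib.MP_534936_co.Gn
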