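import Pool.Agent.Lib.MP_534936_co.Gn.Lin

/-!
# Every circular-arc graph has a linear picture at a shortest arc
-/

set_option autoImplicit false

namespace Pool.Agent.Lib.MP_534936_co.Gn

open Pool.Agent.Lib.MP_534936_co

/-- the points of an arc which starts at the position `s` after `e` -/
theorem mem_pos {V : Type} (N : ℤ) (hN : 0 < N) (a l : V → ℤ) (u : V) (hl : l u < N) (e x : ℤ)
    (hx : 0 ≤ x) (hx' : x < N) :
    Mem N a l u (e + x) ↔ ((a u - e) % N ≤ x ∧ x ≤ (a u - e) % N + l u) ∨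
      x + N ≤ (a u - e) % N + l u := by
  have h0 := Int.emod_nonneg (a u - e) hN.ne'
  have h1 := Int.emod_lt_of_pos (a u - e) hN
  have h2 : (e + x - a u) % N = (x - (a u - e) % N) % N := by
    rw [show e + x - a u = x - (a u - e) by ring, Int.sub_emod, Int.sub_emod x, Int.emod_emod]
  unfold Mem
  rw [h2]
  by_cases h : (a u - e) % N ≤ x
  · rw [Int.emod_eq_of_lt (by omega) (by omega)]
    omega
  · rw [← Int.add_emod_right, Int.emod_eq_of_lt (by omega) (by omega)]
    omega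

/-- the points of the arc `v`, seen from its right end -/
theorem mem_self {V : Type} (N : ℤ) (a l : V → ℤ) (v : V) (hl0 : 0 ≤ l v) (hl : l v < N)
    (x : ℤ) (hx : 0 ≤ x) (hx' : x < N) :
    Mem N a l v (a v + l v + x) ↔ x = 0 ∨ N - l v ≤ x := by
  unfold Mem
  rw [show a v + l v + x - a v = l v + x by ring]
  by_cases h : l v + x < N
  · rw [Int.emod_eq_of_lt (by omega) (by omega)]
    omega
  · rw [← Int.sub_emod_right, Int.emod_eq_of_lt (by omega) (by omega)]
    omega

/-- a circular-arc graph has a linear picture at every arc of minimum length -/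
theorem exists_lin {V : Type} [Fintype V] (N : ℤ) (hN : 0 < N) (a l : V → ℤ)
    (ha : ∀ v, 0 ≤ a v ∧ a v < N) (hl : ∀ v, 0 ≤ l v ∧ l v < N)
    (G : SimpleGraph V) (hG : ∀ u v, G.Adj u v ↔ u ≠ v ∧ ∃ p, Mem N a l u p ∧ Mem N a l v p)
    (v : V) (hv : ∀ u, l v ≤ l u) : Nonempty (Lin G v) := by
  classical
  obtain ⟨e, he⟩ : ∃ e : ℤ, e = a v + l v := ⟨_, rfl⟩
  obtain ⟨s, hs⟩ : ∃ s : V → ℤ, ∀ u, s u = (a u - e) % N := ⟨_, fun _ => rfl⟩
  have hs0 : ∀ u, 0 ≤ s u := fun u => by
    rw [hs u]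
    exact Int.emod_nonneg _ hN.ne'
  have hsN : ∀ u, s u < N := fun u => by
    rw [hs u]
    exact Int.emod_lt_of_pos _ hN
  -- membership of the points `e + x`
  have hm : ∀ u x, 0 ≤ x → x < N →
      (Mem N a l u (e + x) ↔ (s u ≤ x ∧ x ≤ s u + l u) ∨ x + N ≤ s u + l u) := by
    intro u x hx hx'
    rw [hs u]
    exact mem_pos N hN a l u (hl u).2 e x hx hx'
  have hmv : ∀ x, 0 ≤ x → x < N → (Mem N a l v (e + x) ↔ x = 0 ∨ N - l v ≤ x) := by
    intro x hx hx'
    rw [he]
    exact mem_self N a l v (hl v).1 (hl v).2 x hx hx'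
  -- every common point is one of them
  have hsh : ∀ u w, (∃ p, Mem N a l u p ∧ Mem N a l w p) ↔
      ∃ x, 0 ≤ x ∧ x < N ∧ Mem N a l u (e + x) ∧ Mem N a l w (e + x) := by
    intro u w
    constructor
    · rintro ⟨p, h1, h2⟩
      refine ⟨(p - e) % N, Int.emod_nonneg _ hN.ne', Int.emod_lt_of_pos _ hN, ?_, ?_⟩
      · rw [← mem_mod, show (e + (p - e) % N) % N = p % N by
          rw [Int.add_emod, Int.emod_emod, ← Int.add_emod, add_sub_cancel], mem_mod]
        exact h1
      · rw [← mem_mod, show (e + (p - e) % N) % N = p % N by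
          rw [Int.add_emod, Int.emod_emod, ← Int.add_emod, add_sub_cancel], mem_mod]
        exact h2
    · rintro ⟨x, -, -, h1, h2⟩
      exact ⟨e + x, h1, h2⟩
  obtain ⟨cE, hcE⟩ : ∃ cE : V → Prop, ∀ u, cE u ↔ (s u = 0 ∨ N ≤ s u + l u) := ⟨_, fun _ => Iff.rfl⟩
  obtain ⟨cA, hcA⟩ : ∃ cA : V → Prop, ∀ u, cA u ↔ ((l v = 0 ∧ (s u = 0 ∨ N ≤ s u + l u)) ∨
      (0 < l v ∧ ((s u ≤ N - l v ∧ N - l v ≤ s u + l u) ∨ N - l v + N ≤ s u + l u))) :=
    ⟨_, fun _ => Iff.rfl⟩
  have hE : ∀ u, cE u ↔ Mem N a l u (e + 0) := by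
    intro u
    rw [hcE u, hm u 0 le_rfl hN]
    have h1 := hs0 u
    have h2 := (hl u).1
    omega
  have hA : ∀ u, cA u ↔ Mem N a l u (e + (N - l v) % N) := by
    intro u
    rw [hcA u]
    have h1 := hs0 u
    have h2 := hl u
    have h3 := hl v
    rcases h3.1.eq_or_lt with h4 | h4
    · rw [← h4, sub_zero, Int.emod_self, hm u 0 le_rfl hN]
      omega
    · rw [Int.emod_eq_of_lt (by omega) (by omega), hm u _ (by omega) (by omega)]
      omega
  have hP : ∀ u, cE u → ¬ cA u → 0 < l v ∧ ((s u = 0 ∧ s u + l u < N - l v ∧ 0 < l u) ∨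
      (N - l v < s u ∧ N < s u + l u ∧ s u + l u - N < N - l v)) := by
    intro u h1 h2
    rw [hcE u] at h1
    rw [hcA u] at h2
    have h3 := hs0 u
    have h4 := hl u
    have h5 := hl v
    have h6 := hv u
    have h7 := hsN u
    omega
  have hR : ∀ u, ¬ cE u → cA u → 0 < l v ∧ 0 < s u ∧ s u < N - l v ∧ N - l v ≤ s u + l u ∧
      s u + l u < N := by
    intro u h1 h2
    rw [hcE u] at h1
    rw [hcA u] at h2
    have h3 := hs0 u
    have h4 := hl u
    have h5 := hl v
    have h6 := hv u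
    have h7 := hsN u
    omega
  have hO : ∀ u, ¬ cE u → ¬ cA u → 0 < s u ∧ s u + l u < N - l v := by
    intro u h1 h2
    rw [hcE u] at h1
    rw [hcA u] at h2
    have h3 := hs0 u
    have h4 := hl u
    have h5 := hl v
    have h6 := hv u
    have h7 := hsN u
    omega
  obtain ⟨T, hT⟩ : ∃ T : ℕ, (T : ℤ) = N - l v - 1 :=
    ⟨(N - l v - 1).toNat, Int.toNat_of_nonneg (by have := (hl v).2; omega)⟩
  obtain ⟨lo, hlo⟩ : ∃ lo : V → ℕ, ∀ u, lo u = if cE u then 0 else (s u).toNat := ⟨_, fun _ => rfl⟩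
  obtain ⟨hi, hhi⟩ : ∃ hi : V → ℕ, ∀ u, hi u = if cA u then T else
      if N ≤ s u + l u then (s u + l u - N - 1).toNat else (s u + l u - 1).toNat :=
    ⟨_, fun _ => rfl⟩
  obtain ⟨lam, hlam⟩ : ∃ lam : V → ℕ, ∀ u, lam u = if s u = 0 then (l v).toNat else
      (s u - (N - l v)).toNat := ⟨_, fun _ => rfl⟩
  obtain ⟨rho, hrho⟩ : ∃ rho : V → ℕ, ∀ u, rho u = (s u + l u - (N - l v)).toNat :=
    ⟨_, fun _ => rfl⟩
  -- the three types of arcs
  have tP : ∀ u, cE u → ¬ cA u → lo u = 0 ∧ hi u < T ∧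
      ((hi u : ℤ) + 1 = s u + l u ∨ (hi u : ℤ) + 1 = s u + l u - N ∧ N ≤ s u + l u) := by
    intro u h1 h2
    have h3 := hP u h1 h2
    rw [hlo u, hhi u, if_pos h1, if_neg h2]
    refine ⟨rfl, ?_⟩
    split_ifs with h4 <;> omega
  have tR : ∀ u, ¬ cE u → cA u → (lo u : ℤ) = s u ∧ 0 < lo u ∧ lo u ≤ T ∧ hi u = T := by
    intro u h1 h2
    have h3 := hR u h1 h2
    rw [hlo u, hhi u, if_neg h1, if_pos h2]
    omega
  have tO : ∀ u, ¬ cE u → ¬ cA u → (lo u : ℤ) = s u ∧ 0 < lo u ∧ lo u ≤ hi u + 1 ∧ hi u < T ∧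
      (hi u : ℤ) + 1 = s u + l u := by
    intro u h1 h2
    have h3 := hO u h1 h2
    have h5 := hl v
    have h6 := hl u
    rw [hlo u, hhi u, if_neg h1, if_neg h2, if_neg (by omega)]
    omega
  -- the points of an arc which misses an end of `v`, outside `v`
  have hq : ∀ u, ¬ (cE u ∧ cA u) → ∀ x : ℤ, 0 ≤ x → x < N → x ≤ T + 1 →
      (Mem N a l u (e + x) ↔ (lo u : ℤ) ≤ x ∧ x ≤ hi u + 1) := by
    intro u hu x hx0 hxN hxT
    rw [hm u x hx0 hxN]
    have h5 := hl v
    have h6 := hl u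
    by_cases h1 : cE u
    · have h2 : ¬ cA u := fun h => hu ⟨h1, h⟩
      have h3 := hP u h1 h2
      have h4 := tP u h1 h2
      omega
    · by_cases h2 : cA u
      · have h3 := hR u h1 h2
        have h4 := tR u h1 h2
        omega
      · have h3 := hO u h1 h2
        have h4 := tO u h1 h2
        omega
  have hlo' : ∀ u, ¬ (cE u ∧ cA u) → lo u ≤ T ∧ lo u ≤ hi u + 1 := by
    intro u hu
    by_cases h1 : cE u
    · have h4 := tP u h1 (fun h => hu ⟨h1, h⟩)
      omega
    · by_cases h2 : cA u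
      · have h4 := tR u h1 h2
        omega
      · have h4 := tO u h1 h2
        omega
  have hAdj : ∀ u w, G.Adj u w ↔ u ≠ w ∧
      ∃ x, 0 ≤ x ∧ x < N ∧ Mem N a l u (e + x) ∧ Mem N a l w (e + x) := by
    intro u w
    rw [hG u w, hsh u w]
  refine ⟨⟨T, fun u => u ≠ v ∧ cE u ∧ cA u, fun u => u ≠ v ∧ cE u ∧ ¬ cA u,
    fun u => u ≠ v ∧ ¬ cE u ∧ cA u, lo, hi, lam, rho, fun u h => h.1, ?_, ?_, ?_, ?_, ?_, ?_⟩⟩
  · rintro u ⟨h1, h2, h3⟩
    have h4 := tP u h2 h3
    exact ⟨h1, fun h => h3 h.2.2, h4.1, h4.2.1⟩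
  · rintro u ⟨h1, h2, h3⟩
    have h4 := tR u h2 h3
    exact ⟨h1, fun h => h2 h.2.1, h4.2.1, h4.2.2.1, h4.2.2.2⟩
  · intro u h1 h2 h3 h4
    have h5 : ¬ cE u := fun h => by
      by_cases h6 : cA u
      · exact h2 ⟨h1, h, h6⟩
      · exact h3 ⟨h1, h, h6⟩
    have h6 : ¬ cA u := fun h => h4 ⟨h1, h5, h⟩
    have h7 := tO u h5 h6
    exact ⟨h7.2.1, h7.2.2.1, h7.2.2.2.1⟩
  · intro u
    constructor
    · intro h
      obtain ⟨h1, x, hx0, hxN, h2, h3⟩ := (hAdj v u).1 h
      have hvu : u ≠ v := fun h => h1 h.symm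
      by_cases h4 : cE u
      · by_cases h5 : cA u
        · exact Or.inl ⟨hvu, h4, h5⟩
        · exact Or.inr (Or.inl ⟨hvu, h4, h5⟩)
      · by_cases h5 : cA u
        · exact Or.inr (Or.inr ⟨hvu, h4, h5⟩)
        · exfalso
          have h6 := hO u h4 h5
          rw [hmv x hx0 hxN] at h2
          rw [hm u x hx0 hxN] at h3
          have h7 := hl v
          omega
    · intro h
      have h7 := hl v
      have h1 : u ≠ v ∧ (cE u ∨ cA u) := by
        rcases h with h | h | h
        · exact ⟨h.1, Or.inl h.2.1⟩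
        · exact ⟨h.1, Or.inl h.2.1⟩
        · exact ⟨h.1, Or.inr h.2.2⟩
      refine (hAdj v u).2 ⟨fun h => h1.1 h.symm, ?_⟩
      rcases h1.2 with h2 | h2
      · exact ⟨0, le_rfl, hN, (hmv 0 le_rfl hN).2 (Or.inl rfl), (hE u).1 h2⟩
      · refine ⟨(N - l v) % N, Int.emod_nonneg _ hN.ne', Int.emod_lt_of_pos _ hN,
          (hmv _ (Int.emod_nonneg _ hN.ne') (Int.emod_lt_of_pos _ hN)).2 ?_, (hA u).1 h2⟩
        rcases h7.1.eq_or_lt with h8 | h8
        · rw [← h8, sub_zero, Int.emod_self]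
          exact Or.inl rfl
        · rw [Int.emod_eq_of_lt (by omega) (by omega)]
          exact Or.inr le_rfl
  · rintro u w ⟨h1, h2, h3⟩ huw h
    have h4 : cE w ∨ cA w := by
      rcases h with h | h | h
      · exact Or.inl h.2.1
      · exact Or.inl h.2.1
      · exact Or.inr h.2.2
    refine (hAdj u w).2 ⟨huw, ?_⟩
    rcases h4 with h4 | h4
    · exact ⟨0, le_rfl, hN, (hE u).1 h2, (hE w).1 h4⟩
    · exact ⟨(N - l v) % N, Int.emod_nonneg _ hN.ne', Int.emod_lt_of_pos _ hN,
        (hA u).1 h3, (hA w).1 h4⟩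
  · intro u w hu hw hcu hcw huw
    have hcu' : ¬ (cE u ∧ cA u) := fun h => hcu ⟨hu, h.1, h.2⟩
    have hcw' : ¬ (cE w ∧ cA w) := fun h => hcw ⟨hw, h.1, h.2⟩
    have h7 := hl v
    rw [hAdj u w]
    constructor
    · rintro ⟨-, x, hx0, hxN, h2, h3⟩
      by_cases hxT : x ≤ T + 1
      · have h4 := (hq u hcu' x hx0 hxN hxT).1 h2
        have h5 := (hq w hcw' x hx0 hxN hxT).1 h3
        left
        omega
      · rw [hm u x hx0 hxN] at h2
        rw [hm w x hx0 hxN] at h3
        by_cases hEu : cE u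
        · have hAu : ¬ cA u := fun h => hcu' ⟨hEu, h⟩
          have h4 := tP u hEu hAu
          have h4' := hP u hEu hAu
          by_cases hEw : cE w
          · have hAw : ¬ cA w := fun h => hcw' ⟨hEw, h⟩
            have h5 := tP w hEw hAw
            left
            omega
          · by_cases hAw : cA w
            · have h5 := tR w hEw hAw
              have h5' := hR w hEw hAw
              right
              left
              refine ⟨⟨hu, hEu, hAu⟩, ⟨hw, hEw, hAw⟩, ?_⟩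
              rw [hlam u, hrho w]
              split_ifs with h6 <;> omega
            · have h5 := hO w hEw hAw
              omega
        · by_cases hAu : cA u
          · have h4 := tR u hEu hAu
            have h4' := hR u hEu hAu
            by_cases hEw : cE w
            · have hAw : ¬ cA w := fun h => hcw' ⟨hEw, h⟩
              have h5 := tP w hEw hAw
              have h5' := hP w hEw hAw
              right
              right
              refine ⟨⟨hw, hEw, hAw⟩, ⟨hu, hEu, hAu⟩, ?_⟩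
              rw [hlam w, hrho u]
              split_ifs with h6 <;> omega
            · by_cases hAw : cA w
              · have h5 := tR w hEw hAw
                left
                omega
              · have h5 := hO w hEw hAw
                omega
          · have h5 := hO u hEu hAu
            omega
    · have hcommon : ∀ u w, cE u → ¬ cA u → ¬ cE w → cA w → lam u ≤ rho w →
          ∃ x, 0 ≤ x ∧ x < N ∧ Mem N a l u (e + x) ∧ Mem N a l w (e + x) := by
        intro u w hEu hAu hEw hAw hle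
        have h4 := hP u hEu hAu
        have h5 := hR w hEw hAw
        have h6 := hs0 u
        have h8 := hsN u
        have h9 := hl u
        rw [hlam u, hrho w] at hle
        have h10 : s u ≠ 0 := by
          intro h0
          rw [if_pos h0] at hle
          omega
        rw [if_neg h10] at hle
        refine ⟨s u, h6, h8, (hm u _ h6 h8).2 ?_, (hm w _ h6 h8).2 ?_⟩
        · omega
        · omega
      rintro (h | h | h)
      · have h1 := hlo' u hcu'
        have h2 := hlo' w hcw'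
        obtain ⟨m, hm0⟩ : ∃ m : ℕ, m = max (lo u) (lo w) := ⟨_, rfl⟩
        refine ⟨huw, (m : ℤ), by omega, by omega, ?_, ?_⟩
        · exact (hq u hcu' m (by omega) (by omega) (by omega)).2 (by omega)
        · exact (hq w hcw' m (by omega) (by omega) (by omega)).2 (by omega)
      · exact ⟨huw, hcommon u w h.1.2.1 h.1.2.2 h.2.1.2.1 h.2.1.2.2 h.2.2⟩
      · obtain ⟨x, h1, h2, h3, h4⟩ := hcommon w u h.1.2.1 h.1.2.2 h.2.1.2.1 h.2.1.2.2 h.2.2
        exact ⟨huw, x, h1, h2, h4, h3⟩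

end Pool.Agent.Lib.MP_534936_co.Gn
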