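import Pool.Agent.Lib.MP_534936_co.Gn.Token

/-!
# Thresholds from the token
-/

set_option autoImplicit false

namespace Pool.Agent.Lib.MP_534936_co.Gn

open Pool.Agent.Lib.MP_534936_co

variable {V : Type} {G : SimpleGraph V} {v : V}

/-- the bound on the gaps of a path may be raised -/
theorem Path.raise {L : Lin G v} {n : ℕ} {c : V → ℕ} {m : ℕ} {x g : ℕ → ℕ} {h h' : ℕ} (hp : Path L n c m x g h)
    (hh : h ≤ h') : Path L n c m x g h' :=
  ⟨hp.row, hp.inj, hp.start, hp.idle₁, hp.idle₂, hp.mono, fun i hi => (hp.le i hi).trans hh, hp.ok⟩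

/-- an initial part of a path is a path -/
theorem Path.trunc {L : Lin G v} {n : ℕ} {c : V → ℕ} {m : ℕ} {x g : ℕ → ℕ} {h : ℕ} (hp : Path L n c m x g h)
    {j : ℕ} (hj : j ≤ m) : Path L n c j x g h :=
  ⟨fun i hi => hp.row i (hi.trans hj), fun i k hi hk => hp.inj i k (hi.trans hj) (hk.trans hj), hp.start,
    fun i hi => hp.idle₁ i (by omega), fun i hi => hp.idle₂ i (by omega), fun i hi => hp.mono i (by omega),
    fun i hi => hp.le i (by omega), fun i hi => hp.ok i (by omega)⟩

/-- paths can be extended: the token goes from `z` to `x` at the gap `g` -/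
theorem path_step (L : Lin G v) (n : ℕ) (c : V → ℕ) (x z h : ℕ) (hx : Row L n c x)
    (hz : ∃ m y g, Path L n c m y g h ∧ y m = z) (hix : Idle L c x h) (hiz : Idle L c z h)
    (hD : DD L c x z) : ∃ m y g, Path L n c m y g h ∧ y m = x := by
  obtain ⟨m, y, g, hp, hyz⟩ := hz
  by_cases hxm : ∃ j, j ≤ m ∧ y j = x
  · obtain ⟨j, hj, hjx⟩ := hxm
    exact ⟨j, y, g, hp.trunc hj, hjx⟩
  · have hne : ∀ j, j ≤ m → y j ≠ x := fun j hj h1 => hxm ⟨j, hj, h1⟩
    obtain ⟨y', hy'⟩ : ∃ y' : ℕ → ℕ, ∀ i, y' i = if i ≤ m then y i else x := ⟨_, fun _ => rfl⟩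
    obtain ⟨g', hg'⟩ : ∃ g' : ℕ → ℕ, ∀ i, g' i = if i < m then g i else h := ⟨_, fun _ => rfl⟩
    have hy1 : ∀ i, i ≤ m → y' i = y i := fun i hi => by rw [hy' i, if_pos hi]
    have hy2 : y' (m + 1) = x := by rw [hy' (m + 1), if_neg (by omega)]
    have hg1 : ∀ i, i < m → g' i = g i := fun i hi => by rw [hg' i, if_pos hi]
    have hg2 : g' m = h := by rw [hg' m, if_neg (by omega)]
    refine ⟨m + 1, y', g', ?_, hy2⟩
    refine ⟨?_, ?_, ?_, ?_, ?_, ?_, ?_, ?_⟩
    · intro i hi
      rcases Nat.lt_or_ge m i with h1 | h1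
      · have h2 : i = m + 1 := by omega
        rw [h2, hy2]
        exact hx
      · rw [hy1 i h1]
        exact hp.row i h1
    · intro i j hi hj hij
      rcases Nat.lt_or_ge m i with h1 | h1
      · have h2 : i = m + 1 := by omega
        rcases Nat.lt_or_ge m j with h3 | h3
        · omega
        · rw [h2, hy2, hy1 j h3] at hij
          exact absurd hij.symm (hne j h3)
      · rcases Nat.lt_or_ge m j with h3 | h3
        · have h4 : j = m + 1 := by omega
          rw [h4, hy2, hy1 i h1] at hij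
          exact absurd hij (hne i h1)
        · rw [hy1 i h1, hy1 j h3] at hij
          exact hp.inj i j h1 h3 hij
    · intro u hu
      rw [hy1 0 (Nat.zero_le m)]
      exact hp.start u hu
    · intro i hi
      rcases Nat.lt_or_ge i m with h1 | h1
      · rw [hy1 i h1.le, hg1 i h1]
        exact hp.idle₁ i h1
      · have h2 : i = m := by omega
        rw [h2, hy1 m le_rfl, hg2, hyz]
        exact hiz
    · intro i hi
      rcases Nat.lt_or_ge i m with h1 | h1
      · rw [hy1 (i + 1) h1, hg1 i h1]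
        exact hp.idle₂ i h1
      · have h2 : i = m := by omega
        rw [h2, hy2, hg2]
        exact hix
    · intro i hi
      rcases Nat.lt_or_ge (i + 1) m with h1 | h1
      · rw [hg1 i (by omega), hg1 (i + 1) h1]
        exact hp.mono i h1
      · have h2 : i + 1 = m := by omega
        rw [hg1 i (by omega), h2, hg2]
        exact hp.le i (by omega)
    · intro i hi
      rcases Nat.lt_or_ge i m with h1 | h1
      · rw [hg1 i h1]
        exact hp.le i h1
      · have h2 : i = m := by omega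
        rw [h2, hg2]
    · intro i hi
      rcases Nat.lt_or_ge i m with h1 | h1
      · rw [hy1 (i + 1) h1, hy1 i h1.le]
        exact hp.ok i h1
      · have h2 : i = m := by omega
        rw [h2, hy2, hy1 m le_rfl, hyz]
        exact hD

/-- the thresholds -/
theorem thresholds (L : Lin G v) (n : ℕ) (c : V → ℕ) (hc : Proper G v n c)
    (hno : ¬ ∃ c' : V → ℕ, (∀ u, c' u < n) ∧ ∀ u w, G.Adj u w → c' u ≠ c' w) :
    ∃ t : ℕ → ℕ, (∀ x, t x ≤ L.T + 1) ∧
      (∀ x, Row L n c x → 0 < t x → ∃ u, L.isP u ∧ c u = x) ∧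
      (∀ x, Row L n c x → t x ≤ L.T → ∃ u, L.isR u ∧ c u = x) ∧
      ∀ x z, Row L n c x → Row L n c z → x ≠ z → DD L c x z → ∀ g, g ≤ L.T → Idle L c x g →
        Idle L c z g → g < t x → t z ≤ g → False := by
  classical
  refine ⟨fun x => if h : ∃ h, h ≤ L.T ∧ ∃ m y g, Path L n c m y g h ∧ y m = x then Nat.find h
    else L.T + 1, ?_, ?_, ?_, ?_⟩
  · intro x
    by_cases h1 : ∃ h, h ≤ L.T ∧ ∃ m y g, Path L n c m y g h ∧ y m = x
    · simp only [dif_pos h1]
      exact (Nat.find_spec h1).1.trans (Nat.le_succ _)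
    · simp only [dif_neg h1]
      exact le_rfl
  · intro x hx h0
    by_contra hno'
    have h1 : ∃ h, h ≤ L.T ∧ ∃ m y g, Path L n c m y g h ∧ y m = x :=
      ⟨0, Nat.zero_le _, 0, fun _ => x, fun _ => 0,
        ⟨fun _ _ => hx, fun i j hi hj _ => by omega, fun u hu hcu => hno' ⟨u, hu, hcu⟩,
          fun i hi => absurd hi (Nat.not_lt_zero i), fun i hi => absurd hi (Nat.not_lt_zero i),
          fun i hi => absurd hi (Nat.not_lt_zero _), fun i hi => absurd hi (Nat.not_lt_zero i),
          fun i hi => absurd hi (Nat.not_lt_zero i)⟩, rfl⟩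
    simp only [dif_pos h1] at h0
    have h2 := Nat.find_min' h1 (m := 0)
      ⟨Nat.zero_le _, 0, fun _ => x, fun _ => 0,
        ⟨fun _ _ => hx, fun i j hi hj _ => by omega, fun u hu hcu => hno' ⟨u, hu, hcu⟩,
          fun i hi => absurd hi (Nat.not_lt_zero i), fun i hi => absurd hi (Nat.not_lt_zero i),
          fun i hi => absurd hi (Nat.not_lt_zero _), fun i hi => absurd hi (Nat.not_lt_zero i),
          fun i hi => absurd hi (Nat.not_lt_zero i)⟩, rfl⟩
    omega
  · intro x hx hT
    by_cases h1 : ∃ h, h ≤ L.T ∧ ∃ m y g, Path L n c m y g h ∧ y m = x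
    · by_contra hR
      obtain ⟨h, hh, m, y, g, hp, hyx⟩ := h1
      exact hno (recolour L n h hh m c y g hc hp (fun u hu hcu => hR ⟨u, hu, hcu.trans hyx⟩))
    · simp only [dif_neg h1] at hT
      omega
  · intro x z hx hz hxz hD g hg hix hiz htx htz
    by_cases h1 : ∃ h, h ≤ L.T ∧ ∃ m y g, Path L n c m y g h ∧ y m = z
    · simp only [dif_pos h1] at htz
      obtain ⟨h2, m, y, g1, hp, hyz⟩ := Nat.find_spec h1
      have h3 : g ≤ L.T ∧ ∃ m y g2, Path L n c m y g2 g ∧ y m = x :=
        ⟨hg, path_step L n c x z g hx ⟨m, y, g1, hp.raise htz, hyz⟩ hix hiz hD⟩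
      have h4 : ∃ h, h ≤ L.T ∧ ∃ m y g, Path L n c m y g h ∧ y m = x := ⟨g, h3⟩
      simp only [dif_pos h4] at htx
      have h5 := Nat.find_min' h4 h3
      omega
    · simp only [dif_neg h1] at htz
      omega

end Pool.Agent.Lib.MP_534936_co.Gn
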