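import Pool.Agent.Lib.MP_534936_co.Gn.Lin

/-!
# Token paths recolour the graph

`c` is a colouring of `G - v` with the colours `0, ..., n - 1`. A row is a colour class without a `com` arc.
-/

set_option autoImplicit false

namespace Pool.Agent.Lib.MP_534936_co.Gn

open Pool.Agent.Lib.MP_534936_co

variable {V : Type} {G : SimpleGraph V} {v : V}

/-- `c` is a proper colouring of `G - v` with `n` colours -/
def Proper (G : SimpleGraph V) (v : V) (n : ℕ) (c : V → ℕ) : Prop :=
  (∀ u, u ≠ v → c u < n) ∧ ∀ u w, u ≠ v → w ≠ v → G.Adj u w → c u ≠ c w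

/-- the colour `k` is a row: no `com` arc has this colour -/
def Row (L : Lin G v) (n : ℕ) (c : V → ℕ) (k : ℕ) : Prop :=
  k < n ∧ ∀ u, L.com u → c u ≠ k

/-- the row `k` is idle at the gap `g` -/
def Idle (L : Lin G v) (c : V → ℕ) (k g : ℕ) : Prop :=
  ∀ u, u ≠ v → c u = k → ¬ L.com u → ¬ (L.lo u ≤ g ∧ g ≤ L.hi u)

/-- a token may go from the row `z` to the row `x`: the `P` arc of `x` and the `R` arc of `z` (if they exist) do
not meet inside `v` -/
def DD (L : Lin G v) (c : V → ℕ) (x z : ℕ) : Prop :=
  ∀ p q, L.isP p → c p = x → L.isR q → c q = z → L.rho q < L.lam p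

/-- a token path of length `m`: rows `x 0, ..., x m`, pairwise distinct; at the gap `g i` the token goes from `x i` to
`x (i + 1)` (`i < m`); the row `x 0` has no `P` arc; all gaps are at most `h`. -/
structure Path (L : Lin G v) (n : ℕ) (c : V → ℕ) (m : ℕ) (x g : ℕ → ℕ) (h : ℕ) : Prop where
  row : ∀ i, i ≤ m → Row L n c (x i)
  inj : ∀ i j, i ≤ m → j ≤ m → x i = x j → i = j
  start : ∀ u, L.isP u → c u ≠ x 0
  idle₁ : ∀ i, i < m → Idle L c (x i) (g i)
  idle₂ : ∀ i, i < m → Idle L c (x (i + 1)) (g i)
  mono : ∀ i, i + 1 < m → g i ≤ g (i + 1)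
  le : ∀ i, i < m → g i ≤ h
  ok : ∀ i, i < m → DD L c (x (i + 1)) (x i)

/-- the colouring `c` with the colours `a` and `b` exchanged to the right of the gap `g` -/
def tailSwap (L : Lin G v) (c : V → ℕ) (a b g : ℕ) (u : V) : ℕ :=
  if g < L.lo u then Equiv.swap a b (c u) else c u

theorem tailSwap_left (L : Lin G v) (c : V → ℕ) (a b g : ℕ) (u : V) (hu : L.lo u ≤ g) :
    tailSwap L c a b g u = c u := by
  unfold tailSwap
  rw [if_neg (by omega)]

theorem tailSwap_other (L : Lin G v) (c : V → ℕ) (a b g : ℕ) (u : V) (ha : c u ≠ a) (hb : c u ≠ b) :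
    tailSwap L c a b g u = c u := by
  unfold tailSwap
  split_ifs with h
  · exact Equiv.swap_apply_of_ne_of_ne ha hb
  · rfl

/-- if the new colour is a third colour, nothing has changed -/
theorem tailSwap_eq (L : Lin G v) (c : V → ℕ) (a b g k : ℕ) (u : V) (ha : k ≠ a) (hb : k ≠ b)
    (h : tailSwap L c a b g u = k) : c u = k := by
  by_cases h1 : c u = a
  · exfalso
    unfold tailSwap at h
    split_ifs at h with h2
    · rw [h1, Equiv.swap_apply_left] at h
      exact hb h.symm
    · exact ha (h1 ▸ h).symm
  · by_cases h2 : c u = b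
    · exfalso
      unfold tailSwap at h
      split_ifs at h with h3
      · rw [h2, Equiv.swap_apply_right] at h
        exact ha h.symm
      · exact hb (h2 ▸ h).symm
    · rw [tailSwap_other L c a b g u h1 h2] at h
      exact h

/-- monotonicity of the gaps along a path -/
theorem Path.le_of_le {L : Lin G v} {n : ℕ} {c : V → ℕ} {m : ℕ} {x g : ℕ → ℕ} {h : ℕ}
    (hp : Path L n c m x g h) : ∀ j i, i ≤ j → j < m → g i ≤ g j := by
  intro j
  induction j with
  | zero =>
    intro i hi _
    have : i = 0 := by omega
    rw [this]
  | succ j ih =>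
    intro i hi hj
    rcases Nat.lt_or_ge i (j + 1) with h1 | h1
    · exact (ih i (by omega) (by omega)).trans (hp.mono j (by omega))
    · have : i = j + 1 := by omega
      rw [this]

/-- the exchange to the right of `g` keeps the colouring proper -/
theorem proper_tailSwap (L : Lin G v) (n : ℕ) (c : V → ℕ) (a b g : ℕ) (hc : Proper G v n c)
    (ha : Row L n c a) (hb : Row L n c b) (hia : Idle L c a g) (hib : Idle L c b g)
    (hD : DD L c b a) (hR : ∀ u, L.isR u → c u ≠ b) : Proper G v n (tailSwap L c a b g) := by
  have key : ∀ u w, u ≠ v → w ≠ v → G.Adj u w → g < L.lo u → L.lo w ≤ g →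
      tailSwap L c a b g u ≠ tailSwap L c a b g w := by
    intro u w hu hw huw h1 h2 he
    rw [tailSwap_left L c a b g w h2] at he
    by_cases h3 : c u = a ∨ c u = b
    · have h4 : c w = a ∨ c w = b := by
        rw [← he]
        unfold tailSwap
        rw [if_pos h1]
        rcases h3 with h3 | h3
        · right
          rw [h3, Equiv.swap_apply_left]
        · left
          rw [h3, Equiv.swap_apply_right]
      have hcu : ¬ L.com u := fun h => by
        rcases h3 with h3 | h3
        · exact ha.2 u h h3
        · exact hb.2 u h h3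
      have hcw : ¬ L.com w := fun h => by
        rcases h4 with h4 | h4
        · exact ha.2 w h h4
        · exact hb.2 w h h4
      have h5 : ¬ (L.lo w ≤ g ∧ g ≤ L.hi w) := by
        rcases h4 with h4 | h4
        · exact hia w hw h4 hcw
        · exact hib w hw h4 hcw
      have h6 : L.hi w < g := by
        by_contra h
        exact h5 ⟨h2, by omega⟩
      have h7 := (L.adj_iff u w hu hw hcu hcw huw.ne).1 huw
      rcases h7 with h7 | h7 | h7
      · omega
      · have := (L.P_spec u h7.1).2.2.1
        omega
      · obtain ⟨hPw, hRu, hle⟩ := h7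
        have h8 : c u = a := by
          rcases h3 with h3 | h3
          · exact h3
          · exact absurd h3 (hR u hRu)
        have h9 : c w = b := by
          rw [← he]
          unfold tailSwap
          rw [if_pos h1, h8, Equiv.swap_apply_left]
        have := hD w u hPw h9 hRu h8
        omega
    · have h4 : c u ≠ a := fun h => h3 (Or.inl h)
      have h5 : c u ≠ b := fun h => h3 (Or.inr h)
      rw [tailSwap_other L c a b g u h4 h5] at he
      exact hc.2 u w hu hw huw he
  refine ⟨?_, ?_⟩
  · intro u hu
    unfold tailSwap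
    split_ifs with h
    · by_cases h1 : c u = a
      · rw [h1, Equiv.swap_apply_left]
        exact hb.1
      · by_cases h2 : c u = b
        · rw [h2, Equiv.swap_apply_right]
          exact ha.1
        · rw [Equiv.swap_apply_of_ne_of_ne h1 h2]
          exact hc.1 u hu
    · exact hc.1 u hu
  · intro u w hu hw huw
    rcases Nat.lt_or_ge g (L.lo u) with h1 | h1
    · rcases Nat.lt_or_ge g (L.lo w) with h2 | h2
      · unfold tailSwap
        rw [if_pos h1, if_pos h2]
        intro h
        exact hc.2 u w hu hw huw ((Equiv.swap a b).injective h)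
      · exact key u w hu hw huw h1 h2
    · rcases Nat.lt_or_ge g (L.lo w) with h2 | h2
      · exact (key w u hw hu huw.symm h2 h1).symm
      · rw [tailSwap_left L c a b g u h1, tailSwap_left L c a b g w h2]
        exact hc.2 u w hu hw huw

/-- if a token path ends in a row without `R` arc, then `G` is `n`-colourable -/
theorem recolour (L : Lin G v) (n h : ℕ) (hh : h ≤ L.T) : ∀ (m : ℕ) (c : V → ℕ) (x g : ℕ → ℕ), Proper G v n c →
    Path L n c m x g h → (∀ u, L.isR u → c u ≠ x m) →
    ∃ c' : V → ℕ, (∀ u, c' u < n) ∧ ∀ u w, G.Adj u w → c' u ≠ c' w := by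
  intro m
  induction m with
  | zero =>
    intro c x g hc hp hR
    classical
    have hN : ∀ u, G.Adj v u → c u ≠ x 0 := by
      intro u hu
      rcases (L.adj_v u).1 hu with h1 | h1 | h1
      · exact (hp.row 0 le_rfl).2 u h1
      · exact hp.start u h1
      · exact hR u h1
    refine ⟨Function.update c v (x 0), ?_, ?_⟩
    · intro u
      by_cases hu : u = v
      · rw [hu, Function.update_self]
        exact (hp.row 0 le_rfl).1
      · rw [Function.update_of_ne hu]
        exact hc.1 u hu
    · intro u w huw
      by_cases hu : u = v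
      · subst hu
        have hw : w ≠ u := huw.ne'
        rw [Function.update_self, Function.update_of_ne hw]
        exact (hN w huw).symm
      · by_cases hw : w = v
        · subst hw
          rw [Function.update_self, Function.update_of_ne hu]
          exact hN u huw.symm
        · rw [Function.update_of_ne hu, Function.update_of_ne hw]
          exact hc.2 u w hu hw huw
  | succ m ih =>
    intro c x g hc hp hR
    have ha := hp.row m (by omega)
    have hb := hp.row (m + 1) le_rfl
    have hia := hp.idle₁ m (by omega)
    have hib := hp.idle₂ m (by omega)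
    have hD := hp.ok m (by omega)
    have hT : g m ≤ L.T := (hp.le m (by omega)).trans hh
    have hgm : ∀ i, i < m → g i ≤ g m := fun i hi => hp.le_of_le m i (by omega) (by omega)
    refine ih (tailSwap L c (x m) (x (m + 1)) (g m)) x g
      (proper_tailSwap L n c (x m) (x (m + 1)) (g m) hc ha hb hia hib hD hR) ?_ ?_
    · refine ⟨?_, ?_, ?_, ?_, ?_, ?_, ?_, ?_⟩
      · intro i hi
        refine ⟨(hp.row i (by omega)).1, ?_⟩
        intro u hu
        rw [tailSwap_other L c _ _ _ u (ha.2 u hu) (hb.2 u hu)]
        exact (hp.row i (by omega)).2 u hu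
      · intro i j hi hj hij
        exact hp.inj i j (by omega) (by omega) hij
      · intro u hu
        rw [tailSwap_left L c _ _ _ u (by rw [(L.P_spec u hu).2.2.1]; exact Nat.zero_le _)]
        exact hp.start u hu
      · intro i hi u hu hcu hcom hcr
        rw [tailSwap_left L c _ _ _ u (hcr.1.trans (hgm i hi))] at hcu
        exact hp.idle₁ i (by omega) u hu hcu hcom hcr
      · intro i hi u hu hcu hcom hcr
        rw [tailSwap_left L c _ _ _ u (hcr.1.trans (hgm i hi))] at hcu
        exact hp.idle₂ i (by omega) u hu hcu hcom hcr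
      · intro i hi
        exact hp.mono i (by omega)
      · intro i hi
        exact hp.le i (by omega)
      · intro i hi p q hPp hcp hRq hcq
        rw [tailSwap_left L c _ _ _ p (by rw [(L.P_spec p hPp).2.2.1]; exact Nat.zero_le _)] at hcp
        have h1 : x i ≠ x m := fun h => by
          have := hp.inj i m (by omega) (by omega) h
          omega
        have h2 : x i ≠ x (m + 1) := fun h => by
          have := hp.inj i (m + 1) (by omega) (by omega) h
          omega
        exact hp.ok i (by omega) p q hPp hcp hRq (tailSwap_eq L c _ _ _ _ q h1 h2 hcq)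
    · intro u hu hcu
      have hsp := L.R_spec u hu
      rcases Nat.lt_or_ge (g m) (L.lo u) with h1 | h1
      · unfold tailSwap at hcu
        rw [if_pos h1] at hcu
        have h2 : c u = x (m + 1) := by
          have h3 := congrArg (Equiv.swap (x m) (x (m + 1))) hcu
          rw [Equiv.swap_apply_self, Equiv.swap_apply_left] at h3
          exact h3
        exact hR u hu h2
      · rw [tailSwap_left L c _ _ _ u h1] at hcu
        exact hia u hsp.1 hcu hsp.2.1 ⟨h1, by rw [hsp.2.2.2.2]; exact hT⟩

end Pool.Agent.Lib.MP_534936_co.Gn
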